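import Pool.Agent.Mob.Stmts

/-! GEO: geometric resolvent identity, both points in the smaller set. -/

set_option autoImplicit false

open scoped BigOperators

noncomputable section

namespace Pool.Agent.Mob.H58

open Pool.Agent.Anderson Pool.Agent.Loc

/-- GEO -/
theorem geo : GeoStmt := by
  intro d V Λ A E hA h hA' x hx y hy
  have hyL : y ∈ Λ := hA hy
  have e1 : ∀ u ∈ A, ∑ z ∈ A, rm V E u z * gr V Λ E z y =
      (if u = y then 1 else 0) + ∑ u' ∈ Λ \ A, hop u u' * gr V Λ E u' y := by
    intro u hu
    have h1 := rm_mul_gr h (hA hu) hyL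
    rw [← Finset.sum_sdiff hA] at h1
    have h2 : ∑ z ∈ Λ \ A, rm V E u z * gr V Λ E z y =
        - ∑ u' ∈ Λ \ A, hop u u' * gr V Λ E u' y := by
      rw [← Finset.sum_neg_distrib]
      apply Finset.sum_congr rfl
      intro z hz
      have huz : u ≠ z := by
        rintro rfl
        exact (Finset.mem_sdiff.1 hz).2 hu
      unfold rm
      rw [if_neg huz]
      ring
    rw [h2] at h1
    linarith
  have e2 : ∑ u ∈ A, gr V A E x u * ∑ z ∈ A, rm V E u z * gr V Λ E z y = gr V Λ E x y := by
    simp_rw [Finset.mul_sum]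
    rw [Finset.sum_comm]
    have : ∀ z ∈ A, ∑ u ∈ A, gr V A E x u * (rm V E u z * gr V Λ E z y) =
        (if x = z then 1 else 0) * gr V Λ E z y := by
      intro z hz
      rw [← gr_mul_rm hA' hx hz, Finset.sum_mul]
      apply Finset.sum_congr rfl
      intro u _
      ring
    rw [Finset.sum_congr rfl this]
    simp [hx]
  rw [← e2]
  have e3 : ∀ u ∈ A, gr V A E x u * ∑ z ∈ A, rm V E u z * gr V Λ E z y =
      (if u = y then gr V A E x u else 0) +
        ∑ u' ∈ Λ \ A, gr V A E x u * hop u u' * gr V Λ E u' y := by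
    intro u hu
    rw [e1 u hu, mul_add, Finset.mul_sum]
    congr 1
    · split_ifs <;> simp
    · apply Finset.sum_congr rfl
      intro z _
      ring
  rw [Finset.sum_congr rfl e3, Finset.sum_add_distrib]
  congr 1
  rw [Finset.sum_ite_eq']
  simp [hy]

end Pool.Agent.Mob.H58
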