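import Pool.Agent.Mob.Stmts

/-! EDG: the edges of the spectrum. -/

set_option autoImplicit false

open MeasureTheory ProbabilityTheory Function

open scoped ENNReal BigOperators

noncomputable section

namespace Pool.Agent.Mob.H58

open Pool.Agent.Anderson Pool.Agent.Loc

/-- decay in probability, for the measures `PL` -/
theorem edg_pl (d : ℕ) (hd : 3 ≤ d) :
    ∃ C : ℝ, 0 < C ∧ ∀ σ : ℝ, σ ≠ 0 → ∃ m : ℝ, 0 < m ∧
      ∀ (Λ : Finset (Site d)) (x y : Site d) (E : ℝ), x ∈ Λ → y ∈ Λ →
        2 * d + watson d * σ ^ 2 + C * |σ| ^ (2 + 1 / (24 * d : ℝ)) ≤ |E| →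
        PL (gl σ) Λ {V | ¬ Good V Λ E x y (Real.exp (-m * sd x y))} ≤
          ENNReal.ofReal (2 * √(6 * (1 / |σ|)) * Real.exp 1 * Real.exp (-m * sd x y)) := by
  have hd0 : (0:ℝ) < d := by
    have : 0 < d := by omega
    exact_mod_cast this
  have hd3 : (3:ℝ) ≤ d := by exact_mod_cast hd
  obtain ⟨C, hC, h⟩ := init_all (d := d) (by omega) (watson_pos hd)
    (C₅ := 1024 * 5 ^ d + 128) (η := 1 / (2 * d : ℝ)) (by positivity) (by positivity)
    (by
      rw [div_le_one (by positivity)]
      linarith)
    (fun Λ a x ha => gr_zero_diag hd Λ ha x)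
    (fun Λ a x ha ha1 => gr_zero_sq hd Λ ha ha1 x)
  have hexp : 1 / (2 * d : ℝ) / 12 = 1 / (24 * d : ℝ) := by field_simp; norm_num
  rw [hexp] at h
  refine ⟨C, hC, fun σ hσ => ?_⟩
  obtain ⟨L, ε, hε, hinit, hnum⟩ := h σ hσ
  refine ⟨2 / (3 * (L + 2)), by positivity, ?_⟩
  intro Λ x y E hx hy hE
  exact prob_decay (bddDens_gl hσ) hε (hinit E hE) hnum Λ hx hy

/-- a polynomial times a decaying exponential is small somewhere -/
theorem poly_exp (n : ℕ) (c b : ℝ) (hb : 0 < b) (hc : 0 ≤ c) {δ : ℝ} (hδ : 0 < δ) :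
    ∃ L : ℕ, c * (2 * L + 5) ^ n * Real.exp (-(b * L)) ≤ δ := by
  have h1 := (isLittleO_pow_exp_pos_mul_atTop (k := n) hb).bound
    (c := δ / (c + 1) * Real.exp (-(b * 3)) / 2 ^ n) (by positivity)
  have h2 : Filter.Tendsto (fun L : ℕ => (L : ℝ) + 3) Filter.atTop Filter.atTop :=
    Filter.tendsto_atTop_add_const_right _ _ tendsto_natCast_atTop_atTop
  obtain ⟨L, hL⟩ := (h2.eventually h1).exists
  refine ⟨L, ?_⟩
  have hL0 : (0 : ℝ) ≤ L := Nat.cast_nonneg _
  rw [Real.norm_eq_abs, Real.norm_eq_abs, Real.abs_exp, abs_of_nonneg (by positivity)] at hL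
  have h3 : (2 * (L : ℝ) + 5) ^ n ≤ 2 ^ n * ((L : ℝ) + 3) ^ n := by
    rw [← mul_pow]
    exact pow_le_pow_left₀ (by positivity) (by linarith) n
  have h4 : Real.exp (b * ((L : ℝ) + 3)) = Real.exp (b * L) * Real.exp (b * 3) := by
    rw [← Real.exp_add]
    congr 1
    ring
  have h5 : Real.exp (-(b * 3)) * Real.exp (b * 3) = 1 := by
    rw [← Real.exp_add]
    simp
  have h6 : Real.exp (-(b * L)) * Real.exp (b * L) = 1 := by
    rw [← Real.exp_add]
    simp
  have hc1 : 0 < c + 1 := by linarith
  have h2n : (0 : ℝ) < 2 ^ n := by positivity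
  calc c * (2 * L + 5) ^ n * Real.exp (-(b * L))
      ≤ (c + 1) * (2 ^ n * ((L : ℝ) + 3) ^ n) * Real.exp (-(b * L)) := by
        refine mul_le_mul_of_nonneg_right ?_ (Real.exp_pos _).le
        exact mul_le_mul (by linarith) h3 (by positivity) hc1.le
    _ ≤ (c + 1) * (2 ^ n * (δ / (c + 1) * Real.exp (-(b * 3)) / 2 ^ n *
          Real.exp (b * ((L : ℝ) + 3)))) * Real.exp (-(b * L)) := by
        refine mul_le_mul_of_nonneg_right ?_ (Real.exp_pos _).le
        exact mul_le_mul_of_nonneg_left (mul_le_mul_of_nonneg_left hL h2n.le) hc1.le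
    _ = δ * (Real.exp (-(b * 3)) * Real.exp (b * 3)) *
          (Real.exp (-(b * L)) * Real.exp (b * L)) := by
        rw [h4]
        field_simp
    _ = δ := by rw [h5, h6]; ring

/-- EDG -/
theorem edg : EdgStmt := by
  intro d hd
  obtain ⟨C, hC, h⟩ := edg_pl d hd
  refine ⟨C, hC, fun C₀ σ hC₀ hσ => ?_⟩
  obtain ⟨m, hm, hdec⟩ := h σ hσ
  have hσ' : 0 < |σ| := abs_pos.2 hσ
  set ρ : ℝ := 1 / |σ| with hρ
  have hρ0 : 0 < ρ := by positivity
  set K : ℝ := 2 * √(6 * ρ) * Real.exp 1 with hK
  have hK0 : 0 ≤ K := by positivity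
  set D : ℝ := 1 + (2 * K + 6 * ρ) with hD
  have hD0 : 0 ≤ D := by positivity
  obtain ⟨L, hL⟩ := poly_exp (6 * d) (C₀ * (1 + ρ) * D) (m / 8) (by positivity) (by positivity)
    (Real.exp_pos (-1))
  refine ⟨L, fun E hE => ⟨D * Real.exp (-(m / 8 * L)), by positivity, ?_, ?_⟩⟩
  · refine le_trans (le_of_eq ?_) hL
    ring
  · intro x u hxu
    have hx : x ∈ box x L := by
      rw [mem_box]
      have : sd x x = 0 := by unfold sd; simp
      omega
    have hu : u ∈ box x L := mem_box.2 hxu.le
    have h1 := hdec (box x L) x u E hx hu hE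
    rw [hxu] at h1
    set B : Set (Site d → ℝ) := {V | ¬ Good V (box x L) E x u (Real.exp (-m * L))} with hB
    have hBm : MeasurableSet B := measurableSet_not_good _ _ _ _ _
    rw [← lintegral_add_compl _ hBm]
    set a : ℝ := Real.exp (m * L / 2) with ha
    have ha0 : 0 < a := Real.exp_pos _
    have hbad : ∫⁻ V in B, pg (box x L) E x u V ∂(PL (gl σ) (box x L)) ≤
        ENNReal.ofReal ((2 * K + 6 * ρ) * Real.exp (-(m * L / 2))) := by
      calc ∫⁻ V in B, pg (box x L) E x u V ∂(PL (gl σ) (box x L))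
          ≤ ∫⁻ V in B, (1 + ENNReal.ofReal (√|gr V (box x L) E x u|)) ∂(PL (gl σ) (box x L)) :=
            lintegral_mono fun V => p8_le _
        _ = PL (gl σ) (box x L) B +
            ∫⁻ V in B, ENNReal.ofReal (√|gr V (box x L) E x u|) ∂(PL (gl σ) (box x L)) := by
            rw [lintegral_add_left measurable_const]
            simp
        _ ≤ PL (gl σ) (box x L) B +
            (ENNReal.ofReal a * PL (gl σ) (box x L) B + ENNReal.ofReal (6 * ρ / a)) := by
            gcongr
            exact PL_sqrt_event (bddDens_gl hσ) (box x L) E x u B ha0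
        _ ≤ ENNReal.ofReal (K * Real.exp (-m * L)) +
            (ENNReal.ofReal a * ENNReal.ofReal (K * Real.exp (-m * L)) +
              ENNReal.ofReal (6 * ρ / a)) := by
            gcongr
        _ = ENNReal.ofReal (K * Real.exp (-m * L) + (a * (K * Real.exp (-m * L)) + 6 * ρ / a)) := by
            rw [← ENNReal.ofReal_mul ha0.le, ← ENNReal.ofReal_add (by positivity) (by positivity),
              ← ENNReal.ofReal_add (by positivity) (by positivity)]
        _ ≤ _ := by
            apply ENNReal.ofReal_le_ofReal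
            have e1 : a * Real.exp (-m * L) = Real.exp (-(m * L / 2)) := by
              rw [ha, ← Real.exp_add]
              congr 1
              ring
            have e2 : 6 * ρ / a = 6 * ρ * Real.exp (-(m * L / 2)) := by
              rw [ha, Real.exp_neg, div_eq_mul_inv]
            have e3 : Real.exp (-m * L) ≤ Real.exp (-(m * L / 2)) := by
              apply Real.exp_le_exp.2
              have : 0 ≤ m * L := by positivity
              linarith
            have e4 : K * Real.exp (-m * L) ≤ K * Real.exp (-(m * L / 2)) :=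
              mul_le_mul_of_nonneg_left e3 hK0
            calc K * Real.exp (-m * L) + (a * (K * Real.exp (-m * L)) + 6 * ρ / a)
                = K * Real.exp (-m * L) + (K * (a * Real.exp (-m * L)) + 6 * ρ / a) := by ring
              _ = K * Real.exp (-m * L) + (K * Real.exp (-(m * L / 2)) +
                  6 * ρ * Real.exp (-(m * L / 2))) := by rw [e1, e2]
              _ ≤ _ := by linarith
    have hgood : ∫⁻ V in Bᶜ, pg (box x L) E x u V ∂(PL (gl σ) (box x L)) ≤
        ENNReal.ofReal (Real.exp (-(m / 8 * L))) := by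
      calc ∫⁻ V in Bᶜ, pg (box x L) E x u V ∂(PL (gl σ) (box x L))
          ≤ ∫⁻ V in Bᶜ, ENNReal.ofReal (Real.exp (-(m / 8 * L))) ∂(PL (gl σ) (box x L)) := by
            apply setLIntegral_mono measurable_const
            intro V hV
            have hV' : Good V (box x L) E x u (Real.exp (-m * L)) := by
              by_contra h
              exact hV h
            have e1 : p8 (gr V (box x L) E x u) ≤ p8 (Real.exp (-m * L)) := by
              apply p8_mono
              rw [Real.abs_exp]
              exact hV'.2.le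
            refine e1.trans (le_of_eq ?_)
            unfold p8
            rw [Real.abs_exp, ← Real.exp_mul]
            congr 2
            ring
        _ = ENNReal.ofReal (Real.exp (-(m / 8 * L))) * PL (gl σ) (box x L) Bᶜ := by
            rw [setLIntegral_const]
        _ ≤ ENNReal.ofReal (Real.exp (-(m / 8 * L))) * 1 := by
            gcongr
            exact prob_le_one
        _ = _ := mul_one _
    refine (add_le_add hbad hgood).trans ?_
    rw [← ENNReal.ofReal_add (by positivity) (by positivity)]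
    apply ENNReal.ofReal_le_ofReal
    have e1 : Real.exp (-(m * L / 2)) ≤ Real.exp (-(m / 8 * L)) := by
      apply Real.exp_le_exp.2
      have : 0 ≤ m * L := by positivity
      linarith
    have e2 := mul_le_mul_of_nonneg_left e1 (by positivity : 0 ≤ 2 * K + 6 * ρ)
    rw [hD]
    linarith

end Pool.Agent.Mob.H58
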