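import Pool.Agent.Mob.Stmts

/-! BDC: decay in probability in full cubes. -/

set_option autoImplicit false

open MeasureTheory ProbabilityTheory Function

open scoped ENNReal BigOperators

noncomputable section

namespace Pool.Agent.Mob.H58

open Pool.Agent.Anderson Pool.Agent.Loc

/-- BDC -/
theorem bdc : BdcStmt := by
  intro d C₀ σ hd hC₀ hσ hB I L hI
  set c : ℝ := C₀ * (1 + 1 / |σ|) with hc
  have hσ' : 0 < |σ| := abs_pos.2 hσ
  have hc0 : 0 < c := by positivity
  set μ : ℝ := 1 / (2 * (L + 2)) with hμ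
  have hμ0 : 0 < μ := by positivity
  refine ⟨c * Real.exp 1, μ, hμ0, ?_⟩
  intro x u R E hE hR
  set k := R / (L + 2) with hk
  have hk1 : k * (L + 2) ≤ R := Nat.div_mul_le_self _ _
  have hk2 : (R : ℝ) ≤ (k + 1) * (L + 2) := by
    have : R ≤ (R / (L + 2) + 1) * (L + 2) := by
      have := Nat.lt_div_mul_add (a := R) (b := L + 2) (by omega)
      rw [add_mul, one_mul]
      omega
    rw [hk]
    exact_mod_cast this
  have hxx : sd x x = 0 := by
    unfold sd
    simp
  have h1 := hB E L (hI E hE) R k x x u (by rw [hxx]; omega)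
    ((mem_box).2 hR.le) (by rw [hR]; exact hk1)
  have hdet := PL_det (bddDens_gl hσ) (box x R) (box x R) le_rfl E
  have hsub : {V : Site d → ℝ | ¬ Good V (box x R) E x u (Real.exp (-μ * R))} ⊆
      {V | (RM V (box x R) E).det = 0} ∪
        {V | p8 (Real.exp (-μ * R)) ≤ pg (box x R) E x u V} := by
    intro V hV
    rw [Set.mem_ofPred_eq, Good, not_and_or, not_not, not_lt] at hV
    rcases hV with h | h
    · exact Or.inl h
    · right
      rw [Set.mem_ofPred_eq, pg]
      apply p8_mono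
      rwa [Real.abs_exp]
  refine (measure_mono hsub).trans ((measure_union_le _ _).trans ?_)
  rw [hdet, zero_add]
  have h2 := mul_meas_ge_le_lintegral (μ := PL (gl σ) (box x R)) (measurable_pg (box x R) E x u)
    (p8 (Real.exp (-μ * R)))
  have h3 := h2.trans h1
  have hp8 : p8 (Real.exp (-μ * R)) = ENNReal.ofReal (Real.exp (-μ * R / 8)) := by
    unfold p8
    rw [Real.abs_exp, ← Real.exp_mul]
    congr 2
    ring
  rw [hp8] at h3 ⊢
  have hpos : 0 < Real.exp (-μ * R / 8) := Real.exp_pos _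
  rw [ENNReal.mul_le_iff_le_inv (by simpa using hpos) ENNReal.ofReal_ne_top,
    ← ENNReal.ofReal_inv_of_pos hpos, ← ENNReal.ofReal_mul (by positivity)] at h3
  refine h3.trans (ENNReal.ofReal_le_ofReal ?_)
  rw [← Real.exp_neg]
  have e3 : Real.exp (-(-μ * R / 8)) * (c * Real.exp (-(k : ℝ))) =
      c * Real.exp (μ * R / 8 - k) := by
    rw [mul_left_comm, ← Real.exp_add]
    congr 2
    ring
  have e4 : c * Real.exp 1 * Real.exp (-μ * R) = c * Real.exp (1 + -μ * R) := by
    rw [Real.exp_add]; ring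
  rw [e3, e4]
  apply mul_le_mul_of_nonneg_left _ hc0.le
  apply Real.exp_le_exp.2
  have h5 : μ * (L + 2) = 1 / 2 := by rw [hμ]; field_simp
  have h6 : μ * R ≤ (k + 1) * (1 / 2) := by
    rw [← h5]
    calc μ * R ≤ μ * ((k + 1) * (L + 2)) := mul_le_mul_of_nonneg_left hk2 hμ0.le
      _ = _ := by ring
  have h7 : (0 : ℝ) ≤ k := Nat.cast_nonneg _
  have h8 : 0 ≤ μ * R := by positivity
  linarith

end Pool.Agent.Mob.H58
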